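import Pool.Agent.H62.Mul2
import Pool.Agent.H62.Per
import Pool.Agent.H62.Cft4

/-!
# The two sides of the 3-part of the Birch and Swinnerton-Dyer formula for `y² + y = x³` over cyclic extensions of `ℚ(√-3)` with several ramified primes

Let `E : y² + y = x³`, `F = ℚ(√-3)`, and let `K / F` be any cyclic extension of degree `3 ^ n`, `n ≥ 1`, with one
prime above three, unramified outside `k + 1 ≥ 2` primes `(π)`, `π ≡ 1` modulo `3`, and totally ramified
at these primes.

* The torsion group has nine elements, the Tamagawa numbers are `3` at the prime above three and `1` at the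
  others, the equation is minimal.
* Algebraic side: `9 ^ k ≤ 3 ^ (rank E(K)) #Ш(E/K)[3] ^ 2`.
* Analytic side: `L(E/K, s)` has a meromorphic continuation to the plane, analytic at `1`, and the number
  `L(E/K, 1) √|Δ_K| #E(K)_tors² / (Ω_{E/K} ∏ c_v)`, which is the order of `Ш(E/K)` or zero by the formula, is
  rational, and it is zero or divisible by `3 ^ (2 n k)`.

So both sides of the formula are not units at three, in contrast to the case `k = 0` of one ramified prime `π ≢ 1`
modulo `9`.

Proof.  (1) Algebraic side: genus theory for the isogeny `√-3`.  The primes `π` are cubes of ideals of `K`, and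
an element of `F` that is one modulo three is the class of a point of `E` over the completion at three, as the
residue field contains the field with 27 elements (Hensel's lemma for an explicit cubic polynomial).  So the
Selmer group contains the classes of `ω` and of the `π`.  They are independent except for one relation, because
of the total ramification.  (2) Analytic side: for a character `χ ≠ 1` of the group, a product of characters
`χ_π` modulo `π`, the value of the L-function of the Hecke character twisted by `χ` is congruent to the products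
for the trivial characters at some of the `π`: the difference is expanded as a sum over the subsets of the
primes, and each term is a sum of elliptic functions with values in `(1 - χ(σ))^j`.
-/

set_option autoImplicit false

open NumberField IsDedekindDomain WeierstrassCurve MeasureTheory
open scoped Classical

namespace Pool.Agent.Results.MP_f50388_nt.SeveralRamifiedPrimes

open Pool.Agent.TH841.NF.D (Sha)

/-- `E : y² + y = x³`, over the ring `R` -/
def E (R : Type) [CommRing R] : WeierstrassCurve R := ⟨0, 0, 1, 0, 0⟩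

section

variable {k : Type} [Field k] [NumberField k]

/-- The normalised absolute value of the completion `k_v`. -/
noncomputable def nabs (v : HeightOneSpectrum (𝓞 k)) (x : v.adicCompletion k) : ℝ :=
  if x = 0 then 0 else (Ideal.absNorm v.asIdeal : ℝ) ^ WithZero.log (Valued.v x)

/-- A minimal Weierstrass equation of `W` over the completion `k_v`. -/
noncomputable def minEq (W : WeierstrassCurve k) (v : HeightOneSpectrum (𝓞 k)) :
    WeierstrassCurve (v.adicCompletion k) :=
  (W.baseChange (v.adicCompletion k)).minimal (v.adicCompletionIntegers k)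

/-- `V⁰(k_v)`, the group of the points with nonsingular reduction of an equation `V` with integral
coefficients over the completion `k_v`: the point at infinity and the points `(x, y)` where one of the
partial derivatives `2 y + a₁ x + a₃` and `3 x² + 2 a₂ x + a₄ - a₁ y` does not lie in the maximal ideal
(this is always so if `x` is not integral). -/
noncomputable def nonsing (v : HeightOneSpectrum (𝓞 k)) (V : WeierstrassCurve (v.adicCompletion k)) :
    AddSubgroup V.toAffine.Point :=
  AddSubgroup.closure {P | ∀ x y h, P = Affine.Point.some x y h →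
    1 ≤ Valued.v (2 * y + V.a₁ * x + V.a₃) ∨
    1 ≤ Valued.v (3 * x ^ 2 + 2 * V.a₂ * x + V.a₄ - V.a₁ * y)}

/-- The Tamagawa number `c_v = [V(k_v) : V⁰(k_v)]`, where `V` is the minimal equation. -/
noncomputable def c (W : WeierstrassCurve k) (v : HeightOneSpectrum (𝓞 k)) : ℕ :=
  (nonsing v (minEq W v)).index

/-- `|Δ_{v, min} / Δ|_v ^ (1 / 12)`. -/
noncomputable def corr (W : WeierstrassCurve k) (v : HeightOneSpectrum (𝓞 k)) : ℝ :=
  nabs v ((minEq W v).Δ / (W.baseChange (v.adicCompletion k)).Δ) ^ (1 / 12 : ℝ)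

/-- `C_{W/k} = ∏ c_v |Δ_{v, min} / Δ|_v ^ (1 / 12)`. -/
noncomputable def prodC (W : WeierstrassCurve k) : ℝ :=
  ∏ᶠ v : HeightOneSpectrum (𝓞 k), (c W v : ℝ) * corr W v

end

/-- `4 x³ + b₂ x² + 2 b₄ x + b₆ = (2 y + a₁ x + a₃)²`. -/
def cubic (W : WeierstrassCurve ℤ) {R : Type} [CommRing R] (x : R) : R :=
  4 * x ^ 3 + W.b₂ * x ^ 2 + 2 * W.b₄ * x + W.b₆

/-- `Ω₊ = ∫_{W(ℝ)} |ω|` with `ω = dx / (2 y + a₁ x + a₃)`, as an integral over `x`: two real points lie
over each `x` with `cubic x > 0`. -/
noncomputable def realPeriod (W : WeierstrassCurve ℤ) : ℝ :=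
  2 * ∫ x in {x : ℝ | 0 < cubic W x}, 1 / √(cubic W x)

/-- `Ω₋ = 2 ∫_{W(ℂ)} |ω ∧ ω̄|`, where `|ω ∧ ω̄| = du dv` in a local parameter `z = u + i v` with
`dz = ω`, as an integral over `x`: two points lie over a general `x`, and `|ω ∧ ω̄|` is the area
element of the plane of `x` divided by `|cubic x|`. -/
noncomputable def complexPeriod (W : WeierstrassCurve ℤ) : ℝ := 2 * (2 * ∫ x : ℂ, 1 / ‖cubic W x‖)

/-- `Ω_{W/k} = Ω₊ ^ r₁ Ω₋ ^ r₂`. -/
noncomputable def Omega (k : Type) [Field k] [NumberField k] (W : WeierstrassCurve ℤ) : ℝ :=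
  realPeriod W ^ InfinitePlace.nrRealPlaces k * complexPeriod W ^ InfinitePlace.nrComplexPlaces k

/-- The torsion subgroup of the group of the points over `k`. -/
def tors (k : Type) [Field k] [NumberField k] : Set (E k).toAffine.Point :=
  {P | ∃ n : ℕ, 0 < n ∧ n • P = 0}

/-- `x(k) = l √|Disc k| (#E(k)_tors)² / (Ω_{E/k} C_{E/k})`, where `l = L(E/k, 1)`: by the formula this
is `#Ш(E/k)` if the rank is zero, and `0` otherwise. -/
noncomputable def value (k : Type) [Field k] [NumberField k] (l : ℂ) : ℂ :=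
  l * (√|(discr k : ℝ)| : ℝ) * (Nat.card (tors k) : ℂ) ^ 2 / ((Omega k (E ℤ) : ℝ) * (prodC (E k) : ℝ))

/-- `Λ` is the meromorphic continuation of `L(E/k, s)` to the plane, and it is analytic at `1`. -/
def IsContinuation (k : Type) [Field k] [NumberField k] (Λ : ℂ → ℂ) : Prop :=
  MeromorphicOn Λ Set.univ ∧ AnalyticAt ℂ Λ 1 ∧
    ∀ s : ℂ, 3 / 2 < s.re → LSeriesSummable ((fun n : ℤ => (n : ℂ)) ∘ (E k).LFunction) s ∧
      Λ s = (E k).LSeries s

/-- The local arithmetic of `E` over `k`: there are nine torsion points, the Tamagawa numbers are `3` at the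
primes above three and `1` at the others, there is only one prime above three, so their product is three. -/
structure LocalArithmetic (k : Type) [Field k] [NumberField k] : Prop where
  tors_card : Nat.card (tors k) = 9
  tam : ∀ v : HeightOneSpectrum (𝓞 k), c (E k) v = if (3 : 𝓞 k) ∈ v.asIdeal then 3 else 1
  corr : ∀ v : HeightOneSpectrum (𝓞 k), corr (E k) v = 1
  prod : prodC (E k) = 3
  omega : 0 < Omega k (E ℤ)

/-- **Both sides of the 3-part of the formula of Birch and Swinnerton-Dyer for `y² + y = x³` over the cyclic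
extensions `K` of degree `3 ^ n` of `F = ℚ(√-3)` with one prime above three, totally ramified at `k + 1`
primes and unramified at the others.** -/
theorem result (F K : Type) [Field F] [NumberField F] [IsCyclotomicExtension {3} ℚ F] [Field K]
    [NumberField K] [Algebra F K] [IsGalois F K] [IsCyclic Gal(K/F)] (n : ℕ) (hn0 : n ≠ 0)
    (hn : Module.finrank F K = 3 ^ n) (S : Finset (𝓞 F)) (k : ℕ) (hk0 : k ≠ 0)
    (hk : S.card = k + 1) (hS : ∀ π ∈ S, Prime π ∧ 3 ∣ π - 1)
    (hunr : ∀ w : HeightOneSpectrum (𝓞 K), (∀ π ∈ S, algebraMap (𝓞 F) (𝓞 K) π ∉ w.asIdeal) →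
      Algebra.IsUnramifiedAt (𝓞 F) w.asIdeal)
    (htot : ∀ π ∈ S, ∀ v : HeightOneSpectrum (𝓞 K), algebraMap (𝓞 F) (𝓞 K) π ∈ v.asIdeal →
      ∀ (g : Gal(K/F)) (x : 𝓞 K), g • x - x ∈ v.asIdeal)
    (h3 : ∀ v w : HeightOneSpectrum (𝓞 K), 3 ∈ v.asIdeal → 3 ∈ w.asIdeal → v = w) :
    LocalArithmetic K ∧
    (9 : ℕ∞) ^ k ≤ 3 ^ Module.finrank ℤ (E K).toAffine.Point *
      Set.encard {x : Sha (E K) | 3 • x = 0} ^ 2 ∧
    ∃ Λ : ℂ → ℂ, IsContinuation K Λ ∧
      ∃ r : ℚ, value K (Λ 1) = r ∧ (r = 0 ∨ 2 * n * k ≤ padicValRat 3 r) := by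
  obtain ⟨ζ, hζ⟩ := IsCyclotomicExtension.exists_isPrimitiveRoot ℚ F
    (Set.mem_singleton 3) (by norm_num)
  have h3c : (3 : 𝓞 F) ∣ (∏ π ∈ S, π) - 1 := Pool.Agent.H62.three_dvd_prod hS
  obtain ⟨art, hart⟩ := Pool.Agent.H62.Cft.art_of_cyclic (K := K) hn
    (Finset.prod_ne_zero_iff.2 fun π hπ => (hS π hπ).1.ne_zero) h3c (fun w hw =>
      hunr w fun π hπ h => hw (by
        rw [map_prod]
        exact w.asIdeal.mem_of_dvd (Finset.dvd_prod_of_mem _ hπ) h))
  have hA : Pool.Agent.Y696.Art (∏ π ∈ S, π) art := hart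
  have htot' : ∀ v : HeightOneSpectrum (𝓞 K), algebraMap (𝓞 F) (𝓞 K) (∏ p ∈ S, p) ∈ v.asIdeal →
      ∀ (g : Gal(K/F)) (x : 𝓞 K), g • x - x ∈ v.asIdeal := by
    intro v hv
    rw [map_prod] at hv
    have := v.isPrime
    obtain ⟨p, hp, hpv⟩ := Ideal.IsPrime.prod_mem_iff.1 hv
    exact htot p hp v hpv
  have hun3 : Pool.Agent.N883.T.Un3 F K := Pool.Agent.H62.un3_of hA h3c
  have T := Pool.Agent.H62.ms_of_art hζ hn0 hn hS hun3 htot h3
  obtain ⟨Λ, hΛ2, hΛ3⟩ : ∃ L : PeriodPair, L.g₂ = 0 ∧ L.g₃ = -1 := by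
    obtain ⟨Λ, ω, p1, p2, p3⟩ := Pool.Agent.Y696.exists_real
    exact ⟨Λ, p1, p2⟩
  obtain ⟨hper, hpos⟩ := Pool.Agent.H62.cper hΛ2 hΛ3 (Cp := complexPeriod (E ℤ)) rfl
  obtain ⟨hr1, hr2⟩ := Pool.Agent.H62.places (F := F) (K := K) hn
  have hOm : Omega K (E ℤ) = (2 * |((starRingEnd ℂ) Λ.ω₁ * Λ.ω₂).im|) ^ 3 ^ n := by
    unfold Omega
    rw [hr1, hr2, pow_zero, one_mul, hper]
  have htors : Nat.card (tors K) = 9 := T.card_tors
  have hprod : prodC (E K) = 3 := T.prod
  refine ⟨?_, T.main hk, ?_⟩
  · exact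
      { tors_card := htors
        tam := fun v => by
          by_cases hv : (3 : 𝓞 K) ∈ v.asIdeal
          · rw [if_pos hv]
            exact (T.tam v hv).1
          · rw [if_neg hv]
            exact (Pool.Agent.K7.H73.L3.away hv).1
        corr := fun v => by
          by_cases hv : (3 : 𝓞 K) ∈ v.asIdeal
          · exact (T.tam v hv).2
          · exact (Pool.Agent.K7.H73.L3.away hv).2
        prod := hprod
        omega := by
          rw [hOm, ← hper]
          positivity }
  · obtain ⟨L, a1, a2, a3, a5⟩ := Pool.Agent.H62.analytic_KM hn0 hn hS hk hk0 hA htot' hζ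
    refine ⟨L, ⟨a1, a3, a2⟩, ?_⟩
    obtain ⟨r, r1, r3⟩ := a5 Λ hΛ2 hΛ3
    refine ⟨r, ?_, by exact_mod_cast r1⟩
    rw [← r3]
    unfold value
    rw [htors, hprod, hOm]
    push_cast
    ring

end Pool.Agent.Results.MP_f50388_nt.SeveralRamifiedPrimes
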